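import Mathlib

/-!
# Poly-line upward planar grid drawings of digraphs
-/

namespace Q131.Upward

/-- A grid point, regarded as a point of the plane. -/
def toReal (p : ℤ × ℤ) : ℝ × ℝ := ((p.1 : ℝ), (p.2 : ℝ))

/-- The polygonal chain through the given grid points: the union of the segments that join
consecutive points of the list. -/
def polyline : List (ℤ × ℤ) → Set (ℝ × ℝ)
  | [] => ∅
  | [p] => {toReal p}
  | p :: q :: l => segment ℝ (toReal p) (toReal q) ∪ polyline (q :: l)

/-- A poly-line upward planar grid drawing of the digraph `G`.  The vertices are placed at distinct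
grid points; every edge `(u, v)` is drawn as a polygonal chain from `u` to `v` with bends at grid
points, on which the `y`-coordinate is strictly increasing; the curves of two different edges meet
only at common endpoints of the two edges, and a curve contains no vertices other than the two
endpoints of its edge. -/
structure Drawing {V : Type} (G : Digraph V) where
  /-- the position of a vertex -/
  pos : V → ℤ × ℤ
  /-- the bends of the edge `(u, v)`, in their order from `u` to `v` -/
  bends : V → V → List (ℤ × ℤ)
  pos_injective : Function.Injective pos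
  upward : ∀ u v, G.Adj u v →
    (pos u :: (bends u v ++ [pos v])).Pairwise fun p q => p.2 < q.2
  planar : ∀ u v u' v', G.Adj u v → G.Adj u' v' → (u, v) ≠ (u', v') →
    ∀ z, z ∈ polyline (pos u :: (bends u v ++ [pos v])) →
      z ∈ polyline (pos u' :: (bends u' v' ++ [pos v'])) →
      ∃ w, (w = u ∨ w = v) ∧ (w = u' ∨ w = v') ∧ z = toReal (pos w)
  vertex_free : ∀ u v w, G.Adj u v →
    toReal (pos w) ∈ polyline (pos u :: (bends u v ++ [pos v])) → w = u ∨ w = v

/-- A drawing is straight-line if no edge has a bend. -/
def Drawing.StraightLine {V : Type} {G : Digraph V} (D : Drawing G) : Prop :=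
  ∀ u v, G.Adj u v → D.bends u v = []

/-- The whole drawing lies in the axis-parallel rectangle `[a, b] × [c, d]`. -/
def Drawing.InRectangle {V : Type} {G : Digraph V} (D : Drawing G) (a b c d : ℝ) : Prop :=
  (∀ v, toReal (D.pos v) ∈ Set.Icc a b ×ˢ Set.Icc c d) ∧
  ∀ u v, G.Adj u v →
    polyline (D.pos u :: (D.bends u v ++ [D.pos v])) ⊆ Set.Icc a b ×ˢ Set.Icc c d

/-- A bipartite DAG: the vertices are partitioned into two sets such that every edge is directed
from the first set to the second set. -/
def IsBipartiteDAG {V : Type} (G : Digraph V) : Prop :=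
  ∃ V₁ : Set V, ∀ u v, G.Adj u v → u ∈ V₁ ∧ v ∉ V₁

end Q131.Upward
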