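import Pool.Agent.Q131.Upward.Poly

/-!
# A straight-line upward planar drawing of the ladder
-/

namespace Q131.Upward

def orient (A B C : ℤ × ℤ) : ℤ := (B.1 - A.1) * (C.2 - A.2) - (B.2 - A.2) * (C.1 - A.1)

/-- The upward segment `P Q` is to the left of the upward segment `P' Q'`. -/
structure LeftOf (P Q P' Q' : ℤ × ℤ) : Prop where
  bot1 : P'.2 ≤ P.2 → 0 < orient P' Q' P ∨ P = P'
  bot2 : P.2 < P'.2 → orient P Q P' < 0
  top1 : Q.2 ≤ Q'.2 → 0 < orient P' Q' Q ∨ Q = Q'
  top2 : Q'.2 < Q.2 → orient P Q Q' < 0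

theorem affine_pos {α β a b y : ℝ} (ha : a ≤ y) (hb : y ≤ b) (h0 : α * y + β = 0)
    (hFa : 0 < α * a + β) (hFb : 0 < α * b + β) : False := by
  rcases le_total 0 α with h | h
  · nlinarith
  · nlinarith

theorem affine_left {α β a b y : ℝ} (h0 : α * y + β = 0)
    (hFa : α * a + β = 0) (hFb : 0 < α * b + β) : y = a := by
  have h1 : α ≠ 0 := by
    rintro rfl
    linarith
  have h2 : α * (y - a) = 0 := by linarith
  rcases mul_eq_zero.1 h2 with h | h
  · exact absurd h h1
  · linarith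

/-- Segments one of which is left of the other one meet only in common endpoints. -/
theorem leftOf_inter {P Q P' Q' : ℤ × ℤ} (hPQ : P.2 < Q.2) (hPQ' : P'.2 < Q'.2)
    (h : LeftOf P Q P' Q') (hne : (P, Q) ≠ (P', Q')) {z : ℝ × ℝ}
    (hz : z ∈ segment ℝ (toReal P) (toReal Q)) (hz' : z ∈ segment ℝ (toReal P') (toReal Q')) :
    (z = toReal P ∧ P = P') ∨ (z = toReal Q ∧ Q = Q') := by
  have hPQr : (P.2 : ℝ) < Q.2 := by exact_mod_cast hPQ
  have hPQr' : (P'.2 : ℝ) < Q'.2 := by exact_mod_cast hPQ'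
  have hd : (0 : ℝ) < (Q.2 : ℝ) - P.2 := by linarith
  have hd' : (0 : ℝ) < (Q'.2 : ℝ) - P'.2 := by linarith
  have hz0 := hz
  rw [mem_segment_iff hPQ] at hz
  rw [mem_segment_iff hPQ'] at hz'
  obtain ⟨a1, a2, a3⟩ := hz
  obtain ⟨b1, b2, b3⟩ := hz'
  -- the affine function
  set α : ℝ := ((Q'.1 : ℝ) - P'.1) * ((Q.2 : ℝ) - P.2) - ((Q.1 : ℝ) - P.1) * ((Q'.2 : ℝ) - P'.2)
    with hα
  set β : ℝ := ((P'.1 : ℝ) * ((Q'.2 : ℝ) - P'.2) - P'.2 * ((Q'.1 : ℝ) - P'.1)) *
      ((Q.2 : ℝ) - P.2) -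
    ((P.1 : ℝ) * ((Q.2 : ℝ) - P.2) - P.2 * ((Q.1 : ℝ) - P.1)) * ((Q'.2 : ℝ) - P'.2) with hβ
  have a3' : z.1 * ((Q.2 : ℝ) - P.2) =
      P.1 * ((Q.2 : ℝ) - P.2) + (z.2 - P.2) * ((Q.1 : ℝ) - P.1) := by
    rw [a3]
    field_simp
  have b3' : z.1 * ((Q'.2 : ℝ) - P'.2) =
      P'.1 * ((Q'.2 : ℝ) - P'.2) + (z.2 - P'.2) * ((Q'.1 : ℝ) - P'.1) := by
    rw [b3]
    field_simp
  have h0 : α * z.2 + β = 0 := by
    have : α * z.2 + β =
        (P'.1 * ((Q'.2 : ℝ) - P'.2) + (z.2 - P'.2) * ((Q'.1 : ℝ) - P'.1)) * ((Q.2 : ℝ) - P.2) -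
        (P.1 * ((Q.2 : ℝ) - P.2) + (z.2 - P.2) * ((Q.1 : ℝ) - P.1)) * ((Q'.2 : ℝ) - P'.2) := by
      rw [hα, hβ]
      ring
    rw [this, ← a3', ← b3']
    ring
  have eP : α * P.2 + β = ((Q.2 : ℝ) - P.2) * (orient P' Q' P : ℤ) := by
    rw [hα, hβ]
    unfold orient
    push_cast
    ring
  have eQ : α * Q.2 + β = ((Q.2 : ℝ) - P.2) * (orient P' Q' Q : ℤ) := by
    rw [hα, hβ]
    unfold orient
    push_cast
    ring
  have eP' : α * P'.2 + β = -(((Q'.2 : ℝ) - P'.2) * (orient P Q P' : ℤ)) := by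
    rw [hα, hβ]
    unfold orient
    push_cast
    ring
  have eQ' : α * Q'.2 + β = -(((Q'.2 : ℝ) - P'.2) * (orient P Q Q' : ℤ)) := by
    rw [hα, hβ]
    unfold orient
    push_cast
    ring
  -- the lower end
  have low : ∃ a : ℝ, a ≤ z.2 ∧ (0 < α * a + β ∨ (α * a + β = 0 ∧ a = P.2 ∧ P = P')) := by
    rcases le_or_gt P'.2 P.2 with h1 | h1
    · refine ⟨P.2, a1, ?_⟩
      rcases h.bot1 h1 with h2 | h2
      · left
        rw [eP]
        exact mul_pos hd (by exact_mod_cast h2)
      · right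
        refine ⟨?_, rfl, h2⟩
        rw [eP, h2]
        unfold orient
        push_cast
        ring
    · refine ⟨P'.2, b1, Or.inl ?_⟩
      have h2 : ((orient P Q P' : ℤ) : ℝ) < 0 := by exact_mod_cast h.bot2 h1
      rw [eP']
      have := mul_neg_of_pos_of_neg hd' h2
      linarith
  have high : ∃ b : ℝ, z.2 ≤ b ∧ (0 < α * b + β ∨ (α * b + β = 0 ∧ b = Q.2 ∧ Q = Q')) := by
    rcases le_or_gt Q.2 Q'.2 with h1 | h1
    · refine ⟨Q.2, a2, ?_⟩
      rcases h.top1 h1 with h2 | h2
      · left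
        rw [eQ]
        exact mul_pos hd (by exact_mod_cast h2)
      · right
        refine ⟨?_, rfl, h2⟩
        rw [eQ, h2]
        unfold orient
        push_cast
        ring
    · refine ⟨Q'.2, b2, Or.inl ?_⟩
      have h2 : ((orient P Q Q' : ℤ) : ℝ) < 0 := by exact_mod_cast h.top2 h1
      rw [eQ']
      have := mul_neg_of_pos_of_neg hd' h2
      linarith
  obtain ⟨a, ha, hFa⟩ := low
  obtain ⟨b, hb, hFb⟩ := high
  rcases hFa with hFa | ⟨hFa, ha2, ha3⟩ <;> rcases hFb with hFb | ⟨hFb, hb2, hb3⟩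
  · exact absurd (affine_pos ha hb h0 hFa hFb) id
  · right
    refine ⟨?_, hb3⟩
    have h3 : z.2 = b := affine_left h0 hFb hFa
    rw [hb2] at h3
    apply Prod.ext
    · simp only [toReal]
      rw [a3, h3]
      field_simp
      ring
    · exact h3
  · left
    refine ⟨?_, ha3⟩
    have h3 : z.2 = a := affine_left h0 hFa hFb
    rw [ha2] at h3
    apply Prod.ext
    · simp only [toReal]
      rw [a3, h3]
      simp
    · exact h3
  · exact absurd (by rw [ha3, hb3]) hne

/-- Position of a source of level `s`. -/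
def src (s : ℤ) : Bool → ℤ × ℤ
  | false => (-s, -(4 * s + 2))
  | true => (s, -1)

/-- Position of a sink of level `t`. -/
def snk (t : ℤ) : Bool → ℤ × ℤ
  | false => (-t, 4 * t + 2)
  | true => (t, 1)

/-- The position of an edge in the left-to-right order. -/
def rank (s t : ℤ) : Bool → Bool → ℤ
  | false, false => -(min s t + 1)
  | true, true => 3 * min s t + 1
  | false, true => 3 * min s t + (if s < t then 2 else 0)
  | true, false => 3 * min s t + (if t < s then 2 else 0)

theorem leftOf_far (m d : ℤ) (hm : 0 ≤ m) (hd : 0 ≤ d) (t t' : ℤ)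
    (ht : t = 2 * m + 2 ∨ t = 2 * m) (ht' : t' = 2 * (m + 2 + d) + 2 ∨ t' = 2 * (m + 2 + d))
    (a b a' b' : Bool)
    (hr : rank (2 * m + 1) t a b < rank (2 * (m + 2 + d) + 1) t' a' b') :
    LeftOf (src (2 * m + 1) a) (snk t b) (src (2 * (m + 2 + d) + 1) a') (snk t' b') := by
  have hmd := mul_nonneg hm hd
  have hmm := mul_nonneg hm hm
  have hdd := mul_nonneg hd hd
  rcases ht with rfl | rfl <;> rcases ht' with rfl | rfl <;> rcases a with _ | _ <;>
    rcases b with _ | _ <;> rcases a' with _ | _ <;> rcases b' with _ | _ <;>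
    simp only [rank] at hr <;>
    first
      | (exfalso; omega)
      | (constructor <;> intro h <;>
          simp only [src, snk, orient, Prod.mk.injEq] at h ⊢ <;>
          first
            | (exfalso; omega)
            | (right; constructor <;> first | trivial | omega)
            | (left; nlinarith)
            | nlinarith)

theorem leftOf_next (m : ℤ) (hm : 0 ≤ m) (t t' : ℤ)
    (ht : t = 2 * m + 2 ∨ t = 2 * m) (ht' : t' = 2 * (m + 1) + 2 ∨ t' = 2 * (m + 1))
    (a b a' b' : Bool)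
    (hr : rank (2 * m + 1) t a b < rank (2 * (m + 1) + 1) t' a' b') :
    LeftOf (src (2 * m + 1) a) (snk t b) (src (2 * (m + 1) + 1) a') (snk t' b') := by
  have hmm := mul_nonneg hm hm
  rcases ht with rfl | rfl <;> rcases ht' with rfl | rfl <;> rcases a with _ | _ <;>
    rcases b with _ | _ <;> rcases a' with _ | _ <;> rcases b' with _ | _ <;>
    simp only [rank] at hr <;>
    first
      | (exfalso; omega)
      | (constructor <;> intro h <;>
          simp only [src, snk, orient, Prod.mk.injEq] at h ⊢ <;>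
          first
            | (exfalso; omega)
            | (right; constructor <;> first | trivial | omega)
            | (left; nlinarith)
            | nlinarith)

theorem leftOf_same (m : ℤ) (hm : 0 ≤ m) (t t' : ℤ)
    (ht : t = 2 * m + 2 ∨ t = 2 * m) (ht' : t' = 2 * m + 2 ∨ t' = 2 * m)
    (a b a' b' : Bool)
    (hr : rank (2 * m + 1) t a b < rank (2 * m + 1) t' a' b') :
    LeftOf (src (2 * m + 1) a) (snk t b) (src (2 * m + 1) a') (snk t' b') := by
  have hmm := mul_nonneg hm hm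
  rcases ht with rfl | rfl <;> rcases ht' with rfl | rfl <;> rcases a with _ | _ <;>
    rcases b with _ | _ <;> rcases a' with _ | _ <;> rcases b' with _ | _ <;>
    simp only [rank] at hr <;>
    first
      | (exfalso; omega)
      | (constructor <;> intro h <;>
          simp only [src, snk, orient, Prod.mk.injEq] at h ⊢ <;>
          first
            | (exfalso; omega)
            | (right; constructor <;> first | trivial | omega)
            | (left; nlinarith)
            | nlinarith)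

theorem leftOf_prev (m : ℤ) (hm : 0 ≤ m) (t t' : ℤ)
    (ht : t = 2 * (m + 1) + 2 ∨ t = 2 * (m + 1)) (ht' : t' = 2 * m + 2 ∨ t' = 2 * m)
    (a b a' b' : Bool)
    (hr : rank (2 * (m + 1) + 1) t a b < rank (2 * m + 1) t' a' b') :
    LeftOf (src (2 * (m + 1) + 1) a) (snk t b) (src (2 * m + 1) a') (snk t' b') := by
  have hmm := mul_nonneg hm hm
  rcases ht with rfl | rfl <;> rcases ht' with rfl | rfl <;> rcases a with _ | _ <;>
    rcases b with _ | _ <;> rcases a' with _ | _ <;> rcases b' with _ | _ <;>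
    simp only [rank] at hr <;>
    first
      | (exfalso; omega)
      | (constructor <;> intro h <;>
          simp only [src, snk, orient, Prod.mk.injEq] at h ⊢ <;>
          first
            | (exfalso; omega)
            | (right; constructor <;> first | trivial | omega)
            | (left; nlinarith)
            | nlinarith)

theorem leftOf_far_left (m d : ℤ) (hm : 0 ≤ m) (hd : 0 ≤ d) (t t' : ℤ)
    (ht : t = 2 * (m + 2 + d) + 2 ∨ t = 2 * (m + 2 + d)) (ht' : t' = 2 * m + 2 ∨ t' = 2 * m)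
    (a b a' b' : Bool)
    (hr : rank (2 * (m + 2 + d) + 1) t a b < rank (2 * m + 1) t' a' b') :
    LeftOf (src (2 * (m + 2 + d) + 1) a) (snk t b) (src (2 * m + 1) a') (snk t' b') := by
  have hmd := mul_nonneg hm hd
  have hmm := mul_nonneg hm hm
  have hdd := mul_nonneg hd hd
  rcases ht with rfl | rfl <;> rcases ht' with rfl | rfl <;> rcases a with _ | _ <;>
    rcases b with _ | _ <;> rcases a' with _ | _ <;> rcases b' with _ | _ <;>
    simp only [rank] at hr <;>
    first
      | (exfalso; omega)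
      | (constructor <;> intro h <;>
          simp only [src, snk, orient, Prod.mk.injEq] at h ⊢ <;>
          first
            | (exfalso; omega)
            | (right; constructor <;> first | trivial | omega)
            | (left; nlinarith)
            | nlinarith)

theorem leftOf_main (m m' : ℤ) (hm : 0 ≤ m) (hm' : 0 ≤ m') (t t' : ℤ)
    (ht : t = 2 * m + 2 ∨ t = 2 * m) (ht' : t' = 2 * m' + 2 ∨ t' = 2 * m') (a b a' b' : Bool)
    (hr : rank (2 * m + 1) t a b < rank (2 * m' + 1) t' a' b') :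
    LeftOf (src (2 * m + 1) a) (snk t b) (src (2 * m' + 1) a') (snk t' b') := by
  have cases : (∃ d : ℤ, 0 ≤ d ∧ m' = m + 2 + d) ∨ m' = m + 1 ∨ m' = m ∨ m = m' + 1 ∨
      (∃ d : ℤ, 0 ≤ d ∧ m = m' + 2 + d) := by
    by_cases h1 : m + 2 ≤ m'
    · exact Or.inl ⟨m' - m - 2, by omega, by omega⟩
    · by_cases h2 : m' + 2 ≤ m
      · exact Or.inr (Or.inr (Or.inr (Or.inr ⟨m - m' - 2, by omega, by omega⟩)))
      · omega
  rcases cases with ⟨d, hd, rfl⟩ | rfl | rfl | rfl | ⟨d, hd, rfl⟩
  · exact leftOf_far m d hm hd t t' ht ht' a b a' b' hr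
  · exact leftOf_next m hm t t' ht ht' a b a' b' hr
  · exact leftOf_same _ hm t t' ht ht' a b a' b' hr
  · exact leftOf_prev _ hm' t t' ht ht' a b a' b' hr
  · exact leftOf_far_left _ d hm' hd t t' ht ht' a b a' b' hr

end Q131.Upward
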