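import Pool.Agent.Q131.Upward.Poly

/-!
# Nested `4`-cycles in every upward planar drawing of a ladder of complete bipartite levels
-/

namespace Q131.Upward

open Q131 Q131.Strand

/-- Levels `0, ..., K - 1` of two vertices each; the odd levels consist of sources, the even ones
of sinks, and consecutive levels are completely joined. -/
structure Levels {V : Type} (G : Digraph V) (K : ℕ) where
  L : ℕ → Bool → V
  inj : ∀ i j a b, i < K → j < K → L i a = L j b → i = j ∧ a = b
  adj : ∀ i j a b, i < K → j < K → i % 2 = 1 → (j = i + 1 ∨ j + 1 = i) → G.Adj (L i a) (L j b)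

section

variable {V : Type} {G : Digraph V} {K : ℕ} (W : Levels G K) (D : Drawing G)

/-- The route of the edge from `L i a` to `L j b`. -/
def route (i : ℕ) (a : Bool) (j : ℕ) (b : Bool) : List (ℤ × ℤ) :=
  D.pos (W.L i a) :: (D.bends (W.L i a) (W.L j b) ++ [D.pos (W.L j b)])

theorem exists_strands : ∃ E : ℕ → Bool → ℕ → Bool → Strand,
    ∀ i a j b, i < K → j < K → i % 2 = 1 → (j = i + 1 ∨ j + 1 = i) →
      (E i a j b).Joins (toReal (D.pos (W.L i a))) (toReal (D.pos (W.L j b))) ∧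
      ∀ z : ℝ × ℝ, z ∈ polyline (route W D i a j b) ↔
        ((E i a j b).lo ≤ z.2 ∧ z.2 ≤ (E i a j b).hi ∧ z.1 = (E i a j b).f z.2) := by
  have key : ∀ i a j b, ∃ e : Strand, i < K → j < K → i % 2 = 1 → (j = i + 1 ∨ j + 1 = i) →
      e.Joins (toReal (D.pos (W.L i a))) (toReal (D.pos (W.L j b))) ∧
      ∀ z : ℝ × ℝ, z ∈ polyline (route W D i a j b) ↔
        (e.lo ≤ z.2 ∧ z.2 ≤ e.hi ∧ z.1 = e.f z.2) := by
    intro i a j b
    by_cases h : i < K ∧ j < K ∧ i % 2 = 1 ∧ (j = i + 1 ∨ j + 1 = i)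
    · obtain ⟨h1, h2, h3, h4⟩ := h
      obtain ⟨e, he⟩ := exists_strand _ _ _ (D.upward _ _ (W.adj i j a b h1 h2 h3 h4))
      exact ⟨e, fun _ _ _ _ => he⟩
    · exact ⟨⟨0, 1, by norm_num, fun _ => 0, continuous_const⟩,
        fun h1 h2 h3 h4 => absurd ⟨h1, h2, h3, h4⟩ h⟩
  choose E hE using key
  exact ⟨E, hE⟩

end

/-- The data of a drawing of the levels, with the strands. -/
structure Setup (V : Type) (G : Digraph V) (K : ℕ) where
  W : Levels G K
  D : Drawing G
  E : ℕ → Bool → ℕ → Bool → Strand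
  joins : ∀ i a j b, i < K → j < K → i % 2 = 1 → (j = i + 1 ∨ j + 1 = i) →
    (E i a j b).Joins (toReal (D.pos (W.L i a))) (toReal (D.pos (W.L j b)))
  mem : ∀ i a j b, i < K → j < K → i % 2 = 1 → (j = i + 1 ∨ j + 1 = i) →
    ∀ z : ℝ × ℝ, z ∈ polyline (route W D i a j b) ↔
      ((E i a j b).lo ≤ z.2 ∧ z.2 ≤ (E i a j b).hi ∧ z.1 = (E i a j b).f z.2)

theorem exists_setup {V : Type} {G : Digraph V} {K : ℕ} (W : Levels G K) (D : Drawing G) :
    ∃ S : Setup V G K, S.W = W ∧ S.D = D := by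
  obtain ⟨E, hE⟩ := exists_strands W D
  exact ⟨⟨W, D, E, fun i a j b h1 h2 h3 h4 => (hE i a j b h1 h2 h3 h4).1,
    fun i a j b h1 h2 h3 h4 => (hE i a j b h1 h2 h3 h4).2⟩, rfl, rfl⟩

namespace Setup

variable {V : Type} {G : Digraph V} {K : ℕ} (S : Setup V G K)

/-- The position of the vertex `a` of level `i`. -/
noncomputable def P (i : ℕ) (a : Bool) : ℝ × ℝ := toReal (S.D.pos (S.W.L i a))

theorem toReal_inj {p q : ℤ × ℤ} (h : toReal p = toReal q) : p = q := by
  unfold toReal at h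
  rw [Prod.mk.injEq] at h
  exact Prod.ext (by exact_mod_cast h.1) (by exact_mod_cast h.2)

theorem P_ne {i j : ℕ} {a b : Bool} (hi : i < K) (hj : j < K) (h : (i, a) ≠ (j, b)) :
    S.P i a ≠ S.P j b := by
  intro h'
  apply h
  obtain ⟨h1, h2⟩ := S.W.inj i j a b hi hj (S.D.pos_injective (toReal_inj h'))
  rw [h1, h2]

theorem disj {i j i' j' : ℕ} {a b a' b' : Bool} (hi : i < K) (hj : j < K) (hi' : i' < K)
    (hj' : j' < K) (o : i % 2 = 1) (o' : i' % 2 = 1) (hij : j = i + 1 ∨ j + 1 = i)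
    (hij' : j' = i' + 1 ∨ j' + 1 = i') (h1 : (i, a) ≠ (i', a')) (h2 : (j, b) ≠ (j', b')) :
    Disj (S.E i a j b) (S.E i' a' j' b') := by
  intro y l1 l2 l3 l4 heq
  have m1 := (S.mem i a j b hi hj o hij ((S.E i a j b).f y, y)).2 ⟨l1, l2, rfl⟩
  have m2 := (S.mem i' a' j' b' hi' hj' o' hij' ((S.E i a j b).f y, y)).2 ⟨l3, l4, heq⟩
  have hne : (S.W.L i a, S.W.L j b) ≠ (S.W.L i' a', S.W.L j' b') := by
    intro h
    rw [Prod.mk.injEq] at h
    obtain ⟨h3, h4⟩ := S.W.inj _ _ _ _ hi hi' h.1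
    exact h1 (by rw [h3, h4])
  obtain ⟨w, hw1, hw2, -⟩ := S.D.planar _ _ _ _ (S.W.adj i j a b hi hj o hij)
    (S.W.adj i' j' a' b' hi' hj' o' hij') hne _ m1 m2
  rcases hw1 with rfl | rfl <;> rcases hw2 with h | h
  · obtain ⟨h3, h4⟩ := S.W.inj _ _ _ _ hi hi' h
    exact h1 (by rw [h3, h4])
  · obtain ⟨h3, h4⟩ := S.W.inj _ _ _ _ hi hj' h
    omega
  · obtain ⟨h3, h4⟩ := S.W.inj _ _ _ _ hj hi' h
    omega
  · obtain ⟨h3, h4⟩ := S.W.inj _ _ _ _ hj hj' h
    exact h2 (by rw [h3, h4])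

/-- The parity with respect to the cycle formed by the levels `i` and `i + 1`. -/
noncomputable def par (i : ℕ) (z : ℝ × ℝ) : ZMod 2 :=
  parity (S.E i false (i + 1) false) (S.E i false (i + 1) true) (S.E i true (i + 1) false)
    (S.E i true (i + 1) true) z.1 z.2

/-- The parity with respect to a cycle is constant along the edges that avoid it. -/
theorem par_edge {i l m : ℕ} (a b : Bool) (hi : i + 1 < K) (o : i % 2 = 1) (hl : l < K)
    (hm : m < K) (ol : l % 2 = 1) (hlm : m = l + 1 ∨ m + 1 = l) (n1 : l ≠ i) (n2 : m ≠ i + 1)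
    {z : ℝ × ℝ} (hz : z ∈ polyline (route S.W S.D l a m b)) :
    S.par i z = S.par i (S.P l a) := by
  rw [S.mem l a m b hl hm ol hlm] at hz
  obtain ⟨h1, h2, h3⟩ := hz
  have hj := S.joins l a m b hl hm ol hlm
  have d : ∀ s t : Bool, Disj (S.E i s (i + 1) t) (S.E l a m b) := by
    intro s t
    exact S.disj (by omega) hi hl hm o ol (Or.inl rfl) hlm
      (fun h => n1 (by rw [Prod.mk.injEq] at h; exact h.1.symm))
      (fun h => n2 (by rw [Prod.mk.injEq] at h; exact h.1.symm))
  have hJ : ∀ s t : Bool, (S.E i s (i + 1) t).Joins (S.P i s) (S.P (i + 1) t) := fun s t =>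
    S.joins i s (i + 1) t (by omega) hi o (Or.inl rfl)
  have := parity_const (hJ false false) (hJ false true) (hJ true false) (hJ true true)
    (S.E l a m b).cont h1
    (fun y k1 k2 k3 k4 => d false false y k3 k4 k1 (k2.trans h2))
    (fun y k1 k2 k3 k4 => d false true y k3 k4 k1 (k2.trans h2))
    (fun y k1 k2 k3 k4 => d true false y k3 k4 k1 (k2.trans h2))
    (fun y k1 k2 k3 k4 => d true true y k3 k4 k1 (k2.trans h2))
  unfold par P
  rw [h3, ← this, hj.lo, hj.flo]

theorem par_top {i l m : ℕ} (a b : Bool) (hi : i + 1 < K) (o : i % 2 = 1) (hl : l < K)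
    (hm : m < K) (ol : l % 2 = 1) (hlm : m = l + 1 ∨ m + 1 = l) (n1 : l ≠ i) (n2 : m ≠ i + 1) :
    S.par i (S.P m b) = S.par i (S.P l a) := by
  apply S.par_edge a b hi o hl hm ol hlm n1 n2
  apply toReal_mem_polyline
  simp [route]

/-- The levels `i - 1` and `i + 2` are separated by the cycle of the levels `i` and `i + 1`. -/
theorem sep {i : ℕ} (o : i % 2 = 1) (hi : i + 2 < K) (a b : Bool) :
    S.par i (S.P (i - 1) a) + S.par i (S.P (i + 2) b) = 1 := by
  have i1 : i < K := by omega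
  have i2 : i + 1 < K := by omega
  have i0 : i - 1 < K := by omega
  have o2 : (i + 2) % 2 = 1 := by omega
  have u1 : i + 1 = i + 1 ∨ i + 1 + 1 = i := Or.inl rfl
  have u2 : i - 1 = i + 1 ∨ i - 1 + 1 = i := Or.inr (by omega)
  have u3 : i + 1 = i + 2 + 1 ∨ i + 1 + 1 = i + 2 := Or.inr rfl
  have f1 : ∀ x y : Bool, (i, x) ≠ (i + 2, y) := fun x y h => by
    rw [Prod.mk.injEq] at h
    omega
  have f2 : ∀ x y : Bool, (i + 1, x) ≠ (i - 1, y) := fun x y h => by
    rw [Prod.mk.injEq] at h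
    omega
  have f3 : ∀ x y : Bool, (i - 1, x) ≠ (i + 1, y) := fun x y h => by
    rw [Prod.mk.injEq] at h
    omega
  have f4 : (i, false) ≠ (i, true) := by simp
  have f5 : (i, true) ≠ (i, false) := by simp
  have f6 : (i + 1, false) ≠ (i + 1, true) := by simp
  have f7 : (i + 1, true) ≠ (i + 1, false) := by simp
  exact separation (p := S.P i false) (r := S.P i true) (q := S.P (i + 1) false)
    (s := S.P (i + 1) true) (w := S.P (i - 1) a) (z := S.P (i + 2) b)
    (pq := S.E i false (i + 1) false) (ps := S.E i false (i + 1) true)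
    (pw := S.E i false (i - 1) a) (rq := S.E i true (i + 1) false)
    (rs := S.E i true (i + 1) true) (rw' := S.E i true (i - 1) a)
    (zq := S.E (i + 2) b (i + 1) false) (zs := S.E (i + 2) b (i + 1) true)
    (S.joins _ _ _ _ i1 i2 o u1) (S.joins _ _ _ _ i1 i2 o u1) (S.joins _ _ _ _ i1 i0 o u2)
    (S.joins _ _ _ _ i1 i2 o u1) (S.joins _ _ _ _ i1 i2 o u1) (S.joins _ _ _ _ i1 i0 o u2)
    (S.joins _ _ _ _ hi i2 o2 u3) (S.joins _ _ _ _ hi i2 o2 u3)
    (S.P_ne i2 i2 f6) (S.P_ne i2 i0 (f2 _ _)) (S.P_ne i2 i0 (f2 _ _))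
    (S.disj i1 i2 i1 i2 o o u1 u1 f4 f6) (S.disj i1 i2 i1 i0 o o u1 u2 f4 (f2 _ _))
    (S.disj i1 i2 i1 i2 o o u1 u1 f4 f7) (S.disj i1 i2 i1 i0 o o u1 u2 f4 (f2 _ _))
    (S.disj i1 i0 i1 i2 o o u2 u1 f4 (f3 _ _)) (S.disj i1 i0 i1 i2 o o u2 u1 f4 (f3 _ _))
    (S.disj i1 i2 hi i2 o o2 u1 u3 (f1 _ _) f6) (S.disj i1 i2 hi i2 o o2 u1 u3 (f1 _ _) f6)
    (S.disj i1 i0 hi i2 o o2 u2 u3 (f1 _ _) (f3 _ _))
    (S.disj i1 i0 hi i2 o o2 u2 u3 (f1 _ _) (f3 _ _))
    (S.disj i1 i2 hi i2 o o2 u1 u3 (f1 _ _) f7) (S.disj i1 i2 hi i2 o o2 u1 u3 (f1 _ _) f7)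
    (S.disj i1 i0 hi i2 o o2 u2 u3 (f1 _ _) (f3 _ _))
    (S.disj i1 i0 hi i2 o o2 u2 u3 (f1 _ _) (f3 _ _))

/-- All vertices of the levels `≥ i + 2` have the same parity. -/
theorem par_high {i : ℕ} (o : i % 2 = 1) (hi : i + 2 < K) :
    ∀ t, i + 2 + t < K → ∀ b, S.par i (S.P (i + 2 + t) b) = S.par i (S.P (i + 2) false) := by
  intro t
  induction t with
  | zero =>
    intro _ b
    have h1 := S.sep o hi false b
    have h2 := S.sep o hi false false
    rw [← h2] at h1
    exact add_left_cancel h1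
  | succ t ih =>
    intro ht b
    have h1 := ih (by omega) false
    rw [← h1]
    rcases Nat.mod_two_eq_zero_or_one (i + 2 + t) with h | h
    · exact (S.par_top b false (by omega) o ht (by omega) (by omega) (Or.inr (by omega))
        (by omega) (by omega)).symm
    · exact S.par_top false b (by omega) o (by omega) ht h (Or.inl (by omega)) (by omega)
        (by omega)

/-- All vertices of the levels `≤ i - 1` have the same parity. -/
theorem par_low {i : ℕ} (o : i % 2 = 1) (hi : i + 2 < K) :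
    ∀ t j, j + t = i - 1 → ∀ b, S.par i (S.P j b) = S.par i (S.P (i - 1) false) := by
  intro t
  induction t with
  | zero =>
    intro j hj b
    rw [add_zero] at hj
    subst hj
    have h1 := S.sep o hi b false
    have h2 := S.sep o hi false false
    rw [← h2] at h1
    exact add_right_cancel h1
  | succ t ih =>
    intro j hj b
    have h1 := ih (j + 1) (by omega) false
    rw [← h1]
    rcases Nat.mod_two_eq_zero_or_one j with h | h
    · exact S.par_top false b (by omega) o (by omega) (by omega) (by omega) (Or.inr rfl)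
        (by omega) (by omega)
    · exact (S.par_top b false (by omega) o (by omega) (by omega) h (Or.inl rfl)
        (by omega) (by omega)).symm

/-- All grid points of the cycle of the levels `i`, `i + 1` lie in the box. -/
def InBox (i : ℕ) (a b c d : ℤ) : Prop :=
  ∀ s t : Bool, ∀ g ∈ route S.W S.D i s (i + 1) t, (a ≤ g.1 ∧ g.1 ≤ b) ∧ (c ≤ g.2 ∧ g.2 ≤ d)

/-- A grid point off the cycle with odd parity lies strictly inside every box that contains the
cycle. -/
theorem box_strict {i : ℕ} (o : i % 2 = 1) (hi : i + 1 < K) {a b c d : ℤ}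
    (hbox : S.InBox i a b c d) {g : ℤ × ℤ} (hg : S.par i (toReal g) = 1)
    (hoff : ∀ s t, toReal g ∉ polyline (route S.W S.D i s (i + 1) t)) :
    (a + 1 ≤ g.1 ∧ g.1 ≤ b - 1) ∧ (c + 1 ≤ g.2 ∧ g.2 ≤ d - 1) := by
  have i1 : i < K := by omega
  have u1 : i + 1 = i + 1 ∨ i + 1 + 1 = i := Or.inl rfl
  have hJ : ∀ s t : Bool, (S.E i s (i + 1) t).Joins (S.P i s) (S.P (i + 1) t) := fun s t =>
    S.joins i s (i + 1) t i1 hi o u1
  have hM := fun s t => S.mem i s (i + 1) t i1 hi o u1
  have src : ∀ s : Bool, S.D.pos (S.W.L i s) ∈ route S.W S.D i s (i + 1) false := by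
    intro s
    simp [route]
  have snk : ∀ s t : Bool, S.D.pos (S.W.L (i + 1) t) ∈ route S.W S.D i s (i + 1) t := by
    intro s t
    simp [route]
  have four : ∀ e : Strand, (e = S.E i false (i + 1) false ∨ e = S.E i false (i + 1) true ∨
      e = S.E i true (i + 1) false ∨ e = S.E i true (i + 1) true) →
      ∃ s t, e = S.E i s (i + 1) t := by
    rintro e (rfl | rfl | rfl | rfl)
    · exact ⟨_, _, rfl⟩
    · exact ⟨_, _, rfl⟩
    · exact ⟨_, _, rfl⟩
    · exact ⟨_, _, rfl⟩
  refine ⟨⟨?_, ?_⟩, ⟨?_, ?_⟩⟩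
  · obtain ⟨e, he, h1, h2, h3⟩ := odd_left hg
    obtain ⟨s, t, rfl⟩ := four e he
    obtain ⟨g', hg', h4⟩ := exists_grid_le _ _
      ((hM s t ((S.E i s (i + 1) t).f (toReal g).2, (toReal g).2)).2 ⟨h1, h2.le, rfl⟩)
    have h5 := (hbox s t g' hg').1.1
    have h6 : (g'.1 : ℝ) < g.1 := lt_of_le_of_lt h4 h3
    have h7 : g'.1 < g.1 := by exact_mod_cast h6
    omega
  · obtain ⟨e, he, h1, h2, h3⟩ := odd_right (hJ false false) (hJ false true) (hJ true false)
      (hJ true true) hg
    obtain ⟨s, t, rfl⟩ := four e he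
    obtain ⟨g', hg', h4⟩ := exists_grid_ge _ _
      ((hM s t ((S.E i s (i + 1) t).f (toReal g).2, (toReal g).2)).2 ⟨h1, h2.le, rfl⟩)
    have h5 := (hbox s t g' hg').1.2
    have h3' : (toReal g).1 < (S.E i s (i + 1) t).f (toReal g).2 := by
      apply lt_of_le_of_ne h3
      intro h
      exact hoff s t ((hM s t (toReal g)).2 ⟨h1, h2.le, h⟩)
    have h6 : (g.1 : ℝ) < g'.1 := lt_of_lt_of_le h3' h4
    have h7 : g.1 < g'.1 := by exact_mod_cast h6
    omega
  · rcases odd_above (hJ false false) (hJ false true) (hJ true false) (hJ true true) hg with h | h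
    · have h5 := (hbox false false _ (src false)).2.1
      have h7 : (S.D.pos (S.W.L i false)).2 < g.2 := by
        have : ((S.D.pos (S.W.L i false)).2 : ℝ) < g.2 := h
        exact_mod_cast this
      omega
    · have h5 := (hbox true false _ (src true)).2.1
      have h7 : (S.D.pos (S.W.L i true)).2 < g.2 := by
        have : ((S.D.pos (S.W.L i true)).2 : ℝ) < g.2 := h
        exact_mod_cast this
      omega
  · obtain ⟨e, he, h1, h2, h3⟩ := odd_left hg
    obtain ⟨s, t, rfl⟩ := four e he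
    rw [(hJ s t).hi] at h2
    have h5 := (hbox s t _ (snk s t)).2.2
    have h7 : g.2 < (S.D.pos (S.W.L (i + 1) t)).2 := by
      have : (g.2 : ℝ) < (S.D.pos (S.W.L (i + 1) t)).2 := h2
      exact_mod_cast this
    omega

/-- The cycle number `j` lies strictly inside every box around the cycle number `i` if its
vertices have odd parity. -/
theorem inBox_of_par {i j : ℕ} (oi : i % 2 = 1) (oj : j % 2 = 1) (hi : i + 1 < K)
    (hj : j + 1 < K) (hij : i ≠ j) (hpar : ∀ s, S.par i (S.P j s) = 1) {a b c d : ℤ}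
    (hbox : S.InBox i a b c d) : S.InBox j (a + 1) (b - 1) (c + 1) (d - 1) := by
  intro s t g hg
  have hmem := toReal_mem_polyline _ g hg
  apply S.box_strict oi hi hbox
  · rw [← hpar s]
    exact S.par_edge s t hi oi (by omega) hj oj (Or.inl rfl) (Ne.symm hij) (by omega) hmem
  · intro s' t' hmem'
    rw [S.mem i s' (i + 1) t' (by omega) hi oi (Or.inl rfl)] at hmem'
    rw [S.mem j s (j + 1) t (by omega) hj oj (Or.inl rfl)] at hmem
    obtain ⟨h1, h2, h3⟩ := hmem
    obtain ⟨h4, h5, h6⟩ := hmem'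
    have := S.disj (a := s') (b := t') (a' := s) (b' := t) (by omega : i < K) hi
      (by omega : j < K) hj oi oj (Or.inl rfl) (Or.inl rfl)
      (fun h => hij (by rw [Prod.mk.injEq] at h; exact h.1))
      (fun h => hij (by rw [Prod.mk.injEq] at h; omega)) _ h4 h5 h1 h2
    exact this (h6.symm.trans h3)

/-- The cycle number `i` has the higher levels inside. -/
def Up (i : ℕ) : Prop := S.par i (S.P (i + 2) false) = 1

theorem zmod_two (x : ZMod 2) : x = 0 ∨ x = 1 := by
  revert x
  decide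

theorem up_par {i : ℕ} (o : i % 2 = 1) (hi : i + 2 < K) (h : S.Up i) {j : ℕ} (hj : i + 2 ≤ j)
    (hjK : j < K) (s : Bool) : S.par i (S.P j s) = 1 := by
  obtain ⟨t, rfl⟩ := Nat.exists_eq_add_of_le hj
  rw [S.par_high o hi t hjK s]
  exact h

theorem low_par {i : ℕ} (o : i % 2 = 1) (hi : i + 2 < K) (h : ¬ S.Up i) {j : ℕ} (hj : j < i)
    (s : Bool) : S.par i (S.P j s) = 1 := by
  obtain ⟨t, ht⟩ := Nat.exists_eq_add_of_le (Nat.le_sub_one_of_lt hj)
  rw [S.par_low o hi t j ht.symm s]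
  have h1 := S.sep o hi false false
  have h2 : S.par i (S.P (i + 2) false) = 0 := (zmod_two _).resolve_right h
  rw [h2, add_zero] at h1
  exact h1

theorem inBox_up {i : ℕ} (o : i % 2 = 1) (hi : i + 3 < K) (h : S.Up i) {a b c d : ℤ}
    (hbox : S.InBox i a b c d) : S.InBox (i + 2) (a + 1) (b - 1) (c + 1) (d - 1) :=
  S.inBox_of_par o (by omega) (by omega) hi (by omega)
    (fun s => S.up_par o (by omega) h le_rfl (by omega) s) hbox

theorem inBox_low {i : ℕ} (o : i % 2 = 1) (hi : i + 4 < K) (h : ¬ S.Up (i + 2)) {a b c d : ℤ}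
    (hbox : S.InBox (i + 2) a b c d) : S.InBox i (a + 1) (b - 1) (c + 1) (d - 1) :=
  S.inBox_of_par (by omega) o (by omega) (by omega) (by omega)
    (fun s => S.low_par (by omega) (by omega) h (by omega) s) hbox

theorem exists_box (i : ℕ) : ∃ a b c d : ℤ, S.InBox i a b c d := by
  have key : ∀ l : List (ℤ × ℤ), ∃ m : ℤ, ∀ g ∈ l, (-m ≤ g.1 ∧ g.1 ≤ m) ∧ (-m ≤ g.2 ∧ g.2 ≤ m) := by
    intro l
    induction l with
    | nil => exact ⟨0, by simp⟩
    | cons p l ih =>
      obtain ⟨m, hm⟩ := ih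
      refine ⟨max m (max |p.1| |p.2|), ?_⟩
      intro g hg
      rw [List.mem_cons] at hg
      rcases hg with rfl | hg
      · have h1 := abs_le.1 (le_refl |g.1|)
        have h2 := abs_le.1 (le_refl |g.2|)
        have h3 := le_max_right m (max |g.1| |g.2|)
        have h4 := le_max_left |g.1| |g.2|
        have h5 := le_max_right |g.1| |g.2|
        omega
      · have := hm g hg
        have h3 := le_max_left m (max |p.1| |p.2|)
        omega
  obtain ⟨m1, h1⟩ := key (route S.W S.D i false (i + 1) false)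
  obtain ⟨m2, h2⟩ := key (route S.W S.D i false (i + 1) true)
  obtain ⟨m3, h3⟩ := key (route S.W S.D i true (i + 1) false)
  obtain ⟨m4, h4⟩ := key (route S.W S.D i true (i + 1) true)
  refine ⟨-(max (max m1 m2) (max m3 m4)), max (max m1 m2) (max m3 m4),
    -(max (max m1 m2) (max m3 m4)), max (max m1 m2) (max m3 m4), ?_⟩
  rintro (_ | _) (_ | _) g hg
  · have := h1 g hg
    omega
  · have := h2 g hg
    omega
  · have := h3 g hg
    omega
  · have := h4 g hg
    omega

theorem box_nonempty {i : ℕ} {a b c d : ℤ} (h : S.InBox i a b c d) : a ≤ b ∧ c ≤ d := by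
  have := h false false (S.D.pos (S.W.L i false)) (by simp [route])
  omega

/-- If the cycle number `i` has the higher levels inside, so has the cycle number `i + 2`. -/
theorem up_step {i : ℕ} (o : i % 2 = 1) (hi : i + 4 < K) (h : S.Up i) : S.Up (i + 2) := by
  by_contra hcon
  obtain ⟨a, b, c, d, hbox⟩ := S.exists_box i
  have key : ∀ t : ℕ, S.InBox i (a + t) (b - t) (c + t) (d - t) := by
    intro t
    induction t with
    | zero => simpa using hbox
    | succ t ih =>
      have h1 := S.inBox_low o hi hcon (S.inBox_up o (by omega) h ih)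
      intro s t' g hg
      have := h1 s t' g hg
      push_cast
      omega
  have := S.box_nonempty (key (b - a + 1).toNat)
  omega

theorem up_mono {i : ℕ} (o : i % 2 = 1) : ∀ t, i + 2 * t + 2 < K → S.Up i → S.Up (i + 2 * t) := by
  intro t
  induction t with
  | zero => exact fun _ h => h
  | succ t ih =>
    intro hK h
    exact S.up_step (i := i + 2 * t) (by omega) (by omega) (ih (by omega) h)

theorem chain_up {i : ℕ} (o : i % 2 = 1) (h : S.Up i) : ∀ t : ℕ, i + 2 * t + 2 < K →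
    ∀ {a b c d : ℤ}, S.InBox i a b c d → S.InBox (i + 2 * t) (a + t) (b - t) (c + t) (d - t) := by
  intro t
  induction t with
  | zero =>
    intro _ a b c d hbox
    simpa using hbox
  | succ t ih =>
    intro hK a b c d hbox
    have h1 := S.inBox_up (i := i + 2 * t) (by omega) (by omega) (S.up_mono o t (by omega) h)
      (ih (by omega) hbox)
    intro s t' g hg
    have := h1 s t' g hg
    push_cast
    omega

theorem chain_low {i : ℕ} (o : i % 2 = 1) : ∀ t : ℕ, i + 2 * t + 2 < K → ¬ S.Up (i + 2 * t) →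
    ∀ {a b c d : ℤ}, S.InBox (i + 2 * t) a b c d →
      S.InBox i (a + t) (b - t) (c + t) (d - t) := by
  intro t
  induction t with
  | zero =>
    intro _ _ a b c d hbox
    simpa using hbox
  | succ t ih =>
    intro hK h a b c d hbox
    have h1 := S.inBox_low (i := i + 2 * t) (by omega) (by omega) h hbox
    have h2 := ih (by omega)
      (fun h' => h (S.up_step (i := i + 2 * t) (by omega) (by omega) h')) h1
    intro s t' g hg
    have := h2 s t' g hg
    push_cast
    omega

/-- **Size of the drawing.**  Some cycle needs a large box. -/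
theorem big {m : ℕ} (hm : 4 * m + 3 < K) {a b c d : ℤ} (hbox : ∀ i, i % 2 = 1 → i + 1 < K →
    S.InBox i a b c d) : a + 2 * m ≤ b ∧ c + 2 * m ≤ d := by
  by_cases h : S.Up (1 + 2 * m)
  · have h1 := S.chain_up (i := 1 + 2 * m) (by omega) h m (by omega)
      (hbox _ (by omega) (by omega))
    have := S.box_nonempty h1
    omega
  · have h1 := S.chain_low (i := 1) (by omega) m (by omega) h (hbox _ (by omega) (by omega))
    have := S.box_nonempty h1
    omega

end Setup

end Q131.Upward
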