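import Pool.Agent.Q131.Upward.Draw
import Pool.Agent.Q131.Upward.Nested

/-!
# The ladder digraph: a straight-line drawing, and the lower bound for all drawings
-/

namespace Q131.Upward

open Q131

/-- The digraph on `0, ..., n - 1` with levels `{0, 1}, {2, 3}, {4, 5}, ...`: the vertices of the
odd levels are sources, and they are joined to all vertices of the two neighbouring levels. -/
def ladder (n : ℕ) : Digraph (Fin n) where
  Adj u v := (u.val / 2) % 2 = 1 ∧ (v.val / 2 = u.val / 2 + 1 ∨ v.val / 2 + 1 = u.val / 2)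

theorem ladder_bipartite (n : ℕ) : IsBipartiteDAG (ladder n) := by
  refine ⟨{u | (u.val / 2) % 2 = 1}, fun u v h => ⟨h.1, ?_⟩⟩
  rintro (h' : (v.val / 2) % 2 = 1)
  obtain ⟨h1, h2⟩ := h
  omega

/-- The side of a vertex. -/
def side (v : ℕ) : Bool := decide (v % 2 = 1)

def lpos (v : ℕ) : ℤ × ℤ :=
  if (v / 2) % 2 = 1 then src ((v / 2 : ℕ) : ℤ) (side v) else snk ((v / 2 : ℕ) : ℤ) (side v)

theorem eq_of_side {u v : ℕ} (h1 : u / 2 = v / 2) (h2 : side u = side v) : u = v := by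
  unfold side at h2
  rw [decide_eq_decide] at h2
  omega

theorem src_inj {s s' : ℤ} (hs : 0 ≤ s) (hs' : 0 ≤ s') {a a' : Bool} (h : src s a = src s' a') :
    s = s' ∧ a = a' := by
  cases a <;> cases a' <;> simp only [src, Prod.mk.injEq] at h <;> simp <;> omega

theorem snk_inj {s s' : ℤ} (hs : 0 ≤ s) (hs' : 0 ≤ s') {a a' : Bool} (h : snk s a = snk s' a') :
    s = s' ∧ a = a' := by
  cases a <;> cases a' <;> simp only [snk, Prod.mk.injEq] at h <;> simp <;> omega

theorem src_neg {s : ℤ} (hs : 0 ≤ s) (a : Bool) : (src s a).2 < 0 := by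
  cases a <;> simp only [src] <;> omega

theorem snk_pos {s : ℤ} (hs : 0 ≤ s) (a : Bool) : 0 < (snk s a).2 := by
  cases a <;> simp only [snk] <;> omega

theorem lpos_inj {u v : ℕ} (h : lpos u = lpos v) : u = v := by
  have hu : (0 : ℤ) ≤ ((u / 2 : ℕ) : ℤ) := by positivity
  have hv : (0 : ℤ) ≤ ((v / 2 : ℕ) : ℤ) := by positivity
  unfold lpos at h
  split_ifs at h
  · obtain ⟨h1, h2⟩ := src_inj hu hv h
    exact eq_of_side (by exact_mod_cast h1) h2
  · have := src_neg hu (side u)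
    have := snk_pos hv (side v)
    rw [h] at *
    omega
  · have := src_neg hv (side v)
    have := snk_pos hu (side u)
    rw [h] at *
    omega
  · obtain ⟨h1, h2⟩ := snk_inj hu hv h
    exact eq_of_side (by exact_mod_cast h1) h2

/-- An edge of the ladder in coordinates. -/
theorem edge_form {n : ℕ} {u v : Fin n} (h : (ladder n).Adj u v) :
    ∃ m t : ℤ, 0 ≤ m ∧ (t = 2 * m + 2 ∨ t = 2 * m) ∧ ((u.val / 2 : ℕ) : ℤ) = 2 * m + 1 ∧
      ((v.val / 2 : ℕ) : ℤ) = t ∧ lpos u = src (2 * m + 1) (side u) ∧ lpos v = snk t (side v) := by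
  obtain ⟨h1, h2⟩ := h
  refine ⟨((u.val / 2 / 2 : ℕ) : ℤ), ((v.val / 2 : ℕ) : ℤ), by positivity, by omega, by omega, rfl,
    ?_, ?_⟩
  · unfold lpos
    rw [if_pos h1]
    congr 1
    omega
  · unfold lpos
    rw [if_neg (by omega)]

theorem rank_inj {m m' t t' : ℤ} {a b a' b' : Bool} (hm : 0 ≤ m) (hm' : 0 ≤ m')
    (ht : t = 2 * m + 2 ∨ t = 2 * m) (ht' : t' = 2 * m' + 2 ∨ t' = 2 * m')
    (h : rank (2 * m + 1) t a b = rank (2 * m' + 1) t' a' b') :
    m = m' ∧ t = t' ∧ a = a' ∧ b = b' := by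
  cases a <;> cases b <;> cases a' <;> cases b' <;> simp only [rank] at h <;>
    simp <;> rcases ht with rfl | rfl <;> rcases ht' with rfl | rfl <;> omega

theorem mem_two {P Q : ℤ × ℤ} {z : ℝ × ℝ} (h : z ∈ polyline (P :: ([] ++ [Q]))) :
    z ∈ segment ℝ (toReal P) (toReal Q) := by
  simp only [List.nil_append, polyline, Set.mem_union, Set.mem_singleton_iff] at h
  rcases h with h | h
  · exact h
  · rw [h]
    exact right_mem_segment ℝ _ _

theorem ladder_planar {n : ℕ} {u v u' v' : Fin n} (h : (ladder n).Adj u v)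
    (h' : (ladder n).Adj u' v') (hne : (u, v) ≠ (u', v')) {z : ℝ × ℝ}
    (hz : z ∈ segment ℝ (toReal (lpos u)) (toReal (lpos v)))
    (hz' : z ∈ segment ℝ (toReal (lpos u')) (toReal (lpos v'))) :
    (z = toReal (lpos u) ∧ u = u') ∨ (z = toReal (lpos v) ∧ v = v') := by
  obtain ⟨m, t, hm, ht, hu, hv, pu, pv⟩ := edge_form h
  obtain ⟨m', t', hm', ht', hu', hv', pu', pv'⟩ := edge_form h'
  have up : (lpos u).2 < (lpos v).2 := by
    rw [pu, pv]
    exact (src_neg (by omega) _).trans (snk_pos (by omega) _)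
  have up' : (lpos u').2 < (lpos v').2 := by
    rw [pu', pv']
    exact (src_neg (by omega) _).trans (snk_pos (by omega) _)
  have inj : ∀ {x y : Fin n}, lpos x = lpos y → x = y := fun h => Fin.ext (lpos_inj h)
  have hne1 : (lpos u, lpos v) ≠ (lpos u', lpos v') := by
    intro h
    rw [Prod.mk.injEq] at h
    exact hne (by rw [inj h.1, inj h.2])
  rcases lt_trichotomy (rank (2 * m + 1) t (side u) (side v))
    (rank (2 * m' + 1) t' (side u') (side v')) with hr | hr | hr
  · have L := leftOf_main m m' hm hm' t t' ht ht' _ _ _ _ hr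
    rw [← pu, ← pv, ← pu', ← pv'] at L
    rcases leftOf_inter up up' L hne1 hz hz' with ⟨h1, h2⟩ | ⟨h1, h2⟩
    · exact Or.inl ⟨h1, inj h2⟩
    · exact Or.inr ⟨h1, inj h2⟩
  · obtain ⟨h1, h2, h3, h4⟩ := rank_inj hm hm' ht ht' hr
    exfalso
    apply hne1
    rw [pu, pv, pu', pv', h1, h2, h3, h4]
  · have L := leftOf_main m' m hm' hm t' t ht' ht _ _ _ _ hr
    rw [← pu, ← pv, ← pu', ← pv'] at L
    rcases leftOf_inter up' up L hne1.symm hz' hz with ⟨h1, h2⟩ | ⟨h1, h2⟩
    · exact Or.inl ⟨by rw [h1, h2], (inj h2).symm⟩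
    · exact Or.inr ⟨by rw [h1, h2], (inj h2).symm⟩

/-- The ladder has a straight-line upward planar drawing. -/
theorem ladder_drawing (n : ℕ) (hn : 3 ≤ n) : ∃ D : Drawing (ladder n), D.StraightLine := by
  have planar : ∀ u v u' v', (ladder n).Adj u v → (ladder n).Adj u' v' → (u, v) ≠ (u', v') →
      ∀ z : ℝ × ℝ, z ∈ polyline (lpos u :: ([] ++ [lpos v])) →
        z ∈ polyline (lpos u' :: ([] ++ [lpos v'])) →
        ∃ w : Fin n, (w = u ∨ w = v) ∧ (w = u' ∨ w = v') ∧ z = toReal (lpos w) := by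
    intro u v u' v' h h' hne z hz hz'
    rcases ladder_planar h h' hne (mem_two hz) (mem_two hz') with ⟨h1, h2⟩ | ⟨h1, h2⟩
    · exact ⟨u, Or.inl rfl, Or.inl h2, h1⟩
    · exact ⟨v, Or.inr rfl, Or.inr h2, h1⟩
  refine ⟨⟨fun v => lpos v, fun _ _ => [], fun u v h => Fin.ext (lpos_inj h), ?_, planar, ?_⟩,
    fun _ _ _ => rfl⟩
  · intro u v h
    obtain ⟨m, t, hm, ht, hu, hv, pu, pv⟩ := edge_form h
    have up : (lpos u).2 < (lpos v).2 := by
      rw [pu, pv]
      exact (src_neg (by omega) _).trans (snk_pos (by omega) _)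
    simpa using up
  · intro u v w h hw
    by_contra hcon
    push Not at hcon
    obtain ⟨hwu, hwv⟩ := hcon
    -- an edge at `w`
    obtain ⟨u', v', h', hw'⟩ : ∃ u' v' : Fin n, (ladder n).Adj u' v' ∧ (w = u' ∨ w = v') := by
      by_cases h1 : (w.val / 2) % 2 = 1
      · have hlt : 2 * (w.val / 2) - 2 < n := by have := w.isLt; omega
        exact ⟨w, ⟨2 * (w.val / 2) - 2, hlt⟩, ⟨h1, Or.inr (by simp only []; omega)⟩, Or.inl rfl⟩
      · by_cases h0 : w.val / 2 = 0
        · exact ⟨⟨2, by omega⟩, w, ⟨by simp, Or.inr (by simp only []; omega)⟩, Or.inr rfl⟩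
        · have hlt : 2 * (w.val / 2) - 2 < n := by have := w.isLt; omega
          exact ⟨⟨2 * (w.val / 2) - 2, hlt⟩, w, ⟨by simp only []; omega,
            Or.inl (by simp only []; omega)⟩, Or.inr rfl⟩
    have hne : (u, v) ≠ (u', v') := by
      intro he
      rw [Prod.mk.injEq] at he
      rcases hw' with rfl | rfl
      · exact hwu he.1.symm
      · exact hwv he.2.symm
    have hmem : toReal (lpos w) ∈ polyline (lpos u' :: ([] ++ [lpos v'])) := by
      apply toReal_mem_polyline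
      rcases hw' with rfl | rfl <;> simp
    obtain ⟨w', hw1, -, hw3⟩ := planar u v u' v' h h' hne _ hw hmem
    have : w = w' := Fin.ext (lpos_inj (Setup.toReal_inj hw3))
    rw [← this] at hw1
    exact hw1.elim hwu hwv

/-- The levels of the ladder. -/
def ladderLevels (n : ℕ) (hn : 0 < n) : Levels (ladder n) (n / 2) where
  L i a := if h : 2 * i + a.toNat < n then ⟨2 * i + a.toNat, h⟩ else ⟨0, hn⟩
  inj := by
    intro i j a b hi hj h
    have ha : a.toNat ≤ 1 := Bool.toNat_le a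
    have hb : b.toNat ≤ 1 := Bool.toNat_le b
    rw [dif_pos (by omega), dif_pos (by omega), Fin.mk.injEq] at h
    refine ⟨by omega, ?_⟩
    cases a <;> cases b <;> simp at h ⊢ <;> omega
  adj := by
    intro i j a b hi hj ho hij
    have ha : a.toNat ≤ 1 := Bool.toNat_le a
    have hb : b.toNat ≤ 1 := Bool.toNat_le b
    rw [dif_pos (by omega), dif_pos (by omega)]
    refine ⟨?_, ?_⟩
    · simp only []
      omega
    · simp only []
      omega

/-- Every poly-line upward planar grid drawing of the ladder is wide and high. -/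
theorem ladder_big {n m : ℕ} (hm : 8 * m + 8 ≤ n) (D : Drawing (ladder n)) {a b c d : ℝ}
    (hD : D.InRectangle a b c d) : 2 * (m : ℝ) ≤ b - a ∧ 2 * (m : ℝ) ≤ d - c := by
  obtain ⟨S, hW, hS⟩ := exists_setup (ladderLevels n (by omega)) D
  have hbox : ∀ i, i % 2 = 1 → i + 1 < n / 2 → S.InBox i ⌈a⌉ ⌊b⌋ ⌈c⌉ ⌊d⌋ := by
    intro i ho hi s t g hg
    have hadj : (ladder n).Adj (S.W.L i s) (S.W.L (i + 1) t) :=
      S.W.adj _ _ _ _ (by omega) hi ho (Or.inl rfl)
    have hmem := toReal_mem_polyline _ g hg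
    unfold route at hmem
    rw [hS] at hmem
    have := hD.2 _ _ hadj hmem
    rw [Set.mem_prod, Set.mem_Icc, Set.mem_Icc] at this
    obtain ⟨⟨h1, h2⟩, h3, h4⟩ := this
    exact ⟨⟨Int.ceil_le.2 h1, Int.le_floor.2 h2⟩, ⟨Int.ceil_le.2 h3, Int.le_floor.2 h4⟩⟩
  obtain ⟨h1, h2⟩ := S.big (m := m) (by omega) hbox
  have h1' : (⌈a⌉ : ℝ) + 2 * (m : ℝ) ≤ ⌊b⌋ := by exact_mod_cast h1
  have h2' : (⌈c⌉ : ℝ) + 2 * (m : ℝ) ≤ ⌊d⌋ := by exact_mod_cast h2
  have e1 := Int.le_ceil a
  have e2 := Int.floor_le b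
  have e3 := Int.le_ceil c
  have e4 := Int.floor_le d
  constructor <;> linarith

end Q131.Upward
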