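import Pool.Agent.Q131.Upward.Strand
import Pool.Agent.Q131.Upward.Defs

/-!
# The chains of a drawing as strands
-/

namespace Q131.Upward

open Q131

theorem mem_segment_iff {p q : ℤ × ℤ} (h : p.2 < q.2) (z : ℝ × ℝ) :
    z ∈ segment ℝ (toReal p) (toReal q) ↔ (p.2 : ℝ) ≤ z.2 ∧ z.2 ≤ (q.2 : ℝ) ∧
      z.1 = (p.1 : ℝ) + (z.2 - p.2) * (((q.1 : ℝ) - p.1) / ((q.2 : ℝ) - p.2)) := by
  have h' : (p.2 : ℝ) < q.2 := by exact_mod_cast h
  have hd : (0 : ℝ) < (q.2 : ℝ) - p.2 := by linarith
  rw [segment_eq_image']
  constructor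
  · rintro ⟨θ, ⟨h0, h1⟩, rfl⟩
    simp only [toReal, Prod.smul_fst, Prod.smul_snd, Prod.fst_add, Prod.snd_add, Prod.fst_sub,
      Prod.snd_sub, smul_eq_mul]
    refine ⟨?_, ?_, ?_⟩
    · nlinarith
    · nlinarith
    · field_simp
      ring
  · rintro ⟨h0, h1, h2⟩
    refine ⟨(z.2 - p.2) / ((q.2 : ℝ) - p.2), ⟨?_, ?_⟩, ?_⟩
    · apply div_nonneg <;> linarith
    · rw [div_le_one hd]
      linarith
    · apply Prod.ext
      · simp only [toReal, Prod.smul_fst, Prod.fst_add, Prod.fst_sub, smul_eq_mul]
        rw [h2]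
        field_simp
      · simp only [toReal, Prod.smul_snd, Prod.snd_add, Prod.snd_sub, smul_eq_mul]
        field_simp
        ring

/-- A chain with strictly increasing heights is the graph of a continuous function. -/
theorem exists_strand (l : List (ℤ × ℤ)) : ∀ (p q : ℤ × ℤ),
    (p :: (l ++ [q])).Pairwise (fun p q => p.2 < q.2) →
    ∃ e : Strand, e.Joins (toReal p) (toReal q) ∧
      ∀ z : ℝ × ℝ, z ∈ polyline (p :: (l ++ [q])) ↔ (e.lo ≤ z.2 ∧ z.2 ≤ e.hi ∧ z.1 = e.f z.2) := by
  induction l with
  | nil =>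
    intro p q h
    have hpq : p.2 < q.2 := by
      simpa using h
    have hpq' : (p.2 : ℝ) < q.2 := by exact_mod_cast hpq
    refine ⟨⟨p.2, q.2, hpq', fun y => (p.1 : ℝ) + (y - p.2) * (((q.1 : ℝ) - p.1) /
      ((q.2 : ℝ) - p.2)), by fun_prop⟩, ⟨rfl, rfl, ?_, ?_⟩, ?_⟩
    · simp [toReal]
    · have : (q.2 : ℝ) - p.2 ≠ 0 := by linarith
      simp only [toReal]
      field_simp
      ring
    · intro z
      simp only [List.nil_append, polyline]
      rw [Set.mem_union, mem_segment_iff hpq, Set.mem_singleton_iff]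
      constructor
      · rintro (h | rfl)
        · exact h
        · have : (q.2 : ℝ) - p.2 ≠ 0 := by linarith
          simp only [toReal]
          refine ⟨hpq'.le, le_rfl, ?_⟩
          field_simp
          ring
      · exact fun h => Or.inl h
  | cons m l ih =>
    intro p q h
    rw [List.cons_append, List.pairwise_cons] at h
    obtain ⟨h1, h2⟩ := h
    obtain ⟨e, he, hz⟩ := ih m q h2
    have hpm : p.2 < m.2 := h1 m (by simp)
    have hpm' : (p.2 : ℝ) < m.2 := by exact_mod_cast hpm
    have hlt := e.lt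
    rw [he.lo, he.hi] at hlt
    have hflo : e.f (m.2 : ℝ) = m.1 := he.flo
    have hfhi : e.f (q.2 : ℝ) = q.1 := he.fhi
    have hd : (m.2 : ℝ) - p.2 ≠ 0 := by linarith
    simp only [toReal] at hlt
    refine ⟨⟨p.2, q.2, by linarith, fun y => if y ≤ (m.2 : ℝ) then
      (p.1 : ℝ) + (y - p.2) * (((m.1 : ℝ) - p.1) / ((m.2 : ℝ) - p.2)) else e.f y, ?_⟩,
      ⟨rfl, rfl, ?_, ?_⟩, ?_⟩
    · apply Continuous.if_le
      · fun_prop
      · exact e.cont
      · exact continuous_id
      · exact continuous_const
      · intro y hy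
        rw [hy, hflo]
        field_simp
        ring
    · simp only [toReal]
      rw [if_pos hpm'.le]
      simp
    · simp only [toReal]
      rw [if_neg (not_le.2 hlt), hfhi]
    · intro z
      show z ∈ segment ℝ (toReal p) (toReal m) ∪ polyline (m :: (l ++ [q])) ↔ _
      rw [Set.mem_union, mem_segment_iff hpm, hz, he.lo, he.hi]
      simp only [toReal]
      constructor
      · rintro (⟨h3, h4, h5⟩ | ⟨h3, h4, h5⟩)
        · exact ⟨h3, by linarith, by rw [if_pos h4]; exact h5⟩
        · refine ⟨by linarith, h4, ?_⟩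
          rcases h3.eq_or_lt with h6 | h6
          · rw [if_pos h6.symm.le, h5, ← h6, hflo]
            field_simp
            ring
          · rw [if_neg (not_le.2 h6)]
            exact h5
      · rintro ⟨h3, h4, h5⟩
        by_cases h6 : z.2 ≤ (m.2 : ℝ)
        · rw [if_pos h6] at h5
          exact Or.inl ⟨h3, h6, h5⟩
        · rw [if_neg h6] at h5
          exact Or.inr ⟨(not_le.1 h6).le, h4, h5⟩

/-- A polygonal chain has a grid point (a point of the list) weakly to the left of each of its
points, and one weakly to the right. -/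
theorem exists_grid_le (l : List (ℤ × ℤ)) : ∀ z ∈ polyline l, ∃ g ∈ l, (g.1 : ℝ) ≤ z.1 := by
  induction l with
  | nil => intro z hz; exact absurd hz (by simp [polyline])
  | cons p l ih =>
    intro z hz
    match l, ih, hz with
    | [], _, hz =>
      simp only [polyline, Set.mem_singleton_iff] at hz
      exact ⟨p, by simp, by rw [hz]; simp [toReal]⟩
    | q :: l, ih, hz =>
      simp only [polyline, Set.mem_union] at hz
      rcases hz with hz | hz
      · rw [segment_eq_image'] at hz
        obtain ⟨θ, ⟨h0, h1⟩, rfl⟩ := hz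
        simp only [toReal, Prod.smul_fst, Prod.fst_add, Prod.fst_sub, smul_eq_mul]
        rcases le_total (p.1 : ℝ) q.1 with h | h
        · exact ⟨p, by simp, by nlinarith⟩
        · exact ⟨q, by simp, by nlinarith⟩
      · obtain ⟨g, hg, h⟩ := ih z hz
        exact ⟨g, by simp [List.mem_cons] at hg ⊢; tauto, h⟩

theorem exists_grid_ge (l : List (ℤ × ℤ)) : ∀ z ∈ polyline l, ∃ g ∈ l, z.1 ≤ (g.1 : ℝ) := by
  induction l with
  | nil => intro z hz; exact absurd hz (by simp [polyline])
  | cons p l ih =>
    intro z hz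
    match l, ih, hz with
    | [], _, hz =>
      simp only [polyline, Set.mem_singleton_iff] at hz
      exact ⟨p, by simp, by rw [hz]; simp [toReal]⟩
    | q :: l, ih, hz =>
      simp only [polyline, Set.mem_union] at hz
      rcases hz with hz | hz
      · rw [segment_eq_image'] at hz
        obtain ⟨θ, ⟨h0, h1⟩, rfl⟩ := hz
        simp only [toReal, Prod.smul_fst, Prod.fst_add, Prod.fst_sub, smul_eq_mul]
        rcases le_total (p.1 : ℝ) q.1 with h | h
        · exact ⟨q, by simp, by nlinarith⟩
        · exact ⟨p, by simp, by nlinarith⟩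
      · obtain ⟨g, hg, h⟩ := ih z hz
        exact ⟨g, by simp [List.mem_cons] at hg ⊢; tauto, h⟩

/-- The points of the list lie on the chain. -/
theorem toReal_mem_polyline (l : List (ℤ × ℤ)) : ∀ g ∈ l, toReal g ∈ polyline l := by
  induction l with
  | nil => intro g hg; exact absurd hg (by simp)
  | cons p l ih =>
    intro g hg
    match l, ih, hg with
    | [], _, hg =>
      simp only [List.mem_singleton] at hg
      simp [polyline, hg]
    | q :: l, ih, hg =>
      rw [List.mem_cons] at hg
      simp only [polyline, Set.mem_union]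
      rcases hg with rfl | hg
      · left
        exact left_mem_segment ℝ _ _
      · right
        exact ih g hg

end Q131.Upward
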