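import Mathlib

/-!
# Strands: `y`-monotone curves, and parities of `y`-monotone cycles

A strand is a curve that is the graph `x = f y` of a continuous function over an interval
`[lo, hi]` of heights.
-/

namespace Q131

structure Strand where
  lo : ℝ
  hi : ℝ
  lt : lo < hi
  f : ℝ → ℝ
  cont : Continuous f

namespace Strand

/-- Two strands have no common point. -/
def Disj (e g : Strand) : Prop :=
  ∀ y : ℝ, e.lo ≤ y → y ≤ e.hi → g.lo ≤ y → y ≤ g.hi → e.f y ≠ g.f y

theorem Disj.symm {e g : Strand} (h : Disj e g) : Disj g e :=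
  fun y h1 h2 h3 h4 h5 => h y h3 h4 h1 h2 h5.symm

/-- Two continuous functions that do not meet on `[a, b]` are in the same order at `a` and `b`. -/
theorem order_const {f g : ℝ → ℝ} (hf : Continuous f) (hg : Continuous g) {a b : ℝ} (hab : a ≤ b)
    (h : ∀ y, a ≤ y → y ≤ b → f y ≠ g y) (ha : f a < g a) : f b < g b := by
  by_contra hcon
  have hb : g b ≤ f b := not_lt.1 hcon
  have hc : ContinuousOn (fun y => f y - g y) (Set.Icc a b) := (hf.sub hg).continuousOn
  have h0 : (0 : ℝ) ∈ Set.Icc ((fun y => f y - g y) a) ((fun y => f y - g y) b) :=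
    ⟨by simp only; linarith, by simp only; linarith⟩
  obtain ⟨y, hy, hy0⟩ := intermediate_value_Icc hab hc h0
  exact h y hy.1 hy.2 (by simp only at hy0; linarith)

theorem order_iff {f g : ℝ → ℝ} (hf : Continuous f) (hg : Continuous g) {a b : ℝ} (hab : a ≤ b)
    (h : ∀ y, a ≤ y → y ≤ b → f y ≠ g y) : f a < g a ↔ f b < g b := by
  constructor
  · exact order_const hf hg hab h
  · intro hb
    by_contra ha
    have ha' : g a < f a := lt_of_le_of_ne (not_lt.1 ha) (fun h' => h a le_rfl hab h'.symm)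
    have := order_const hg hf hab (fun y h1 h2 => (h y h1 h2).symm) ha'
    exact absurd hb (not_lt.2 this.le)

open Classical in
/-- Indicator in `ZMod 2`. -/
noncomputable def ind (P : Prop) : ZMod 2 := if P then 1 else 0

/-- `1` if the strand is active at the height `y` (half-open convention) and passes left of
`x`; otherwise `0`. -/
noncomputable def left (e : Strand) (x y : ℝ) : ZMod 2 :=
  ind (e.lo ≤ y ∧ y < e.hi ∧ e.f y < x)

theorem ind_add_self (P : Prop) : ind P + ind P = 0 := by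
  have : ∀ x : ZMod 2, x + x = 0 := by decide
  exact this _

theorem add_self (x : ZMod 2) : x + x = 0 := by
  revert x
  decide

theorem ind_congr {P Q : Prop} (h : P ↔ Q) : ind P = ind Q := by
  rw [propext h]

theorem ind_true {P : Prop} (h : P) : ind P = 1 := if_pos h

theorem ind_false {P : Prop} (h : ¬ P) : ind P = 0 := if_neg h

theorem left_eq (e : Strand) (x y : ℝ) : e.left x y = ind (e.lo ≤ y ∧ y < e.hi ∧ e.f y < x) := rfl

/-- How the contribution of one strand `e` changes along a disjoint curve `g`. -/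
theorem left_change (e : Strand) {g : ℝ → ℝ} (hg : Continuous g) {a b : ℝ} (hab : a ≤ b)
    (h : ∀ y, a ≤ y → y ≤ b → e.lo ≤ y → y ≤ e.hi → e.f y ≠ g y) :
    e.left (g a) a + e.left (g b) b =
      ind (a < e.lo ∧ e.lo ≤ b ∧ e.f e.lo < g e.lo) +
      ind (a < e.hi ∧ e.hi ≤ b ∧ e.f e.hi < g e.hi) := by
  have hlt := e.lt
  have key : ∀ s t : ℝ, a ≤ s → s ≤ t → t ≤ b → e.lo ≤ s → t ≤ e.hi →
      (e.f s < g s ↔ e.f t < g t) := by
    intro s t h1 h2 h3 h4 h5
    exact order_iff e.cont hg h2 fun y hy1 hy2 =>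
      h y (h1.trans hy1) (hy2.trans h3) (h4.trans hy1) (hy2.trans h5)
  rw [left_eq, left_eq]
  by_cases hb : b < e.lo
  · rw [ind_false (P := e.lo ≤ a ∧ _), ind_false (P := e.lo ≤ b ∧ _), ind_false (P := a < e.lo ∧ _),
      ind_false (P := a < e.hi ∧ _)]
    · rintro ⟨-, h', -⟩
      linarith
    · rintro ⟨-, h', -⟩
      linarith
    · rintro ⟨h', -⟩
      linarith
    · rintro ⟨h', -⟩
      linarith
  rw [not_lt] at hb
  by_cases ha : e.hi ≤ a
  · rw [ind_false (P := e.lo ≤ a ∧ _), ind_false (P := e.lo ≤ b ∧ _), ind_false (P := a < e.lo ∧ _),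
      ind_false (P := a < e.hi ∧ _)]
    · rintro ⟨h', -⟩
      linarith
    · rintro ⟨h', -⟩
      linarith
    · rintro ⟨-, h', -⟩
      linarith
    · rintro ⟨-, h', -⟩
      linarith
  rw [not_le] at ha
  by_cases ha2 : a < e.lo
  · rw [ind_false (P := e.lo ≤ a ∧ _) (by rintro ⟨h', -⟩; linarith), zero_add]
    by_cases hb2 : b < e.hi
    · rw [ind_false (P := a < e.hi ∧ _) (by rintro ⟨-, h', -⟩; linarith), add_zero]
      apply ind_congr
      rw [key e.lo b ha2.le hb le_rfl le_rfl hb2.le]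
      tauto
    · rw [not_lt] at hb2
      rw [ind_false (P := e.lo ≤ b ∧ _) (by rintro ⟨-, h', -⟩; linarith)]
      have : ind (a < e.hi ∧ e.hi ≤ b ∧ e.f e.hi < g e.hi) =
          ind (a < e.lo ∧ e.lo ≤ b ∧ e.f e.lo < g e.lo) := by
        apply ind_congr
        rw [key e.lo e.hi ha2.le hlt.le hb2 le_rfl le_rfl]
        tauto
      rw [this, ind_add_self]
  · rw [not_lt] at ha2
    rw [ind_false (P := a < e.lo ∧ _) (by rintro ⟨h', -⟩; linarith), zero_add]
    by_cases hb2 : b < e.hi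
    · rw [ind_false (P := a < e.hi ∧ _) (by rintro ⟨-, h', -⟩; linarith)]
      have : ind (e.lo ≤ b ∧ b < e.hi ∧ e.f b < g b) =
          ind (e.lo ≤ a ∧ a < e.hi ∧ e.f a < g a) := by
        apply ind_congr
        rw [key a b le_rfl hab le_rfl ha2 hb2.le]
        tauto
      rw [this, ind_add_self]
    · rw [not_lt] at hb2
      rw [ind_false (P := e.lo ≤ b ∧ _) (by rintro ⟨-, h', -⟩; linarith), add_zero]
      apply ind_congr
      rw [key a e.hi le_rfl ha.le hb2 ha2 le_rfl]
      tauto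

/-- The strand `e` goes from the point `p` to the point `q`. -/
structure Joins (e : Strand) (p q : ℝ × ℝ) : Prop where
  lo : e.lo = p.2
  hi : e.hi = q.2
  flo : e.f p.2 = p.1
  fhi : e.f q.2 = q.1

/-- The parity of a `4`-cycle with sources `p, r` and sinks `q, s`. -/
noncomputable def parity (pq ps rq rs : Strand) (x y : ℝ) : ZMod 2 :=
  pq.left x y + ps.left x y + (rq.left x y + rs.left x y)

/-- The parity is constant along curves that avoid the cycle. -/
theorem parity_const {pq ps rq rs : Strand} {p q r s : ℝ × ℝ} (hpq : pq.Joins p q)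
    (hps : ps.Joins p s) (hrq : rq.Joins r q) (hrs : rs.Joins r s) {g : ℝ → ℝ}
    (hg : Continuous g) {a b : ℝ} (hab : a ≤ b)
    (h1 : ∀ y, a ≤ y → y ≤ b → pq.lo ≤ y → y ≤ pq.hi → pq.f y ≠ g y)
    (h2 : ∀ y, a ≤ y → y ≤ b → ps.lo ≤ y → y ≤ ps.hi → ps.f y ≠ g y)
    (h3 : ∀ y, a ≤ y → y ≤ b → rq.lo ≤ y → y ≤ rq.hi → rq.f y ≠ g y)
    (h4 : ∀ y, a ≤ y → y ≤ b → rs.lo ≤ y → y ≤ rs.hi → rs.f y ≠ g y) :
    parity pq ps rq rs (g a) a = parity pq ps rq rs (g b) b := by
  have e1 := left_change pq hg hab h1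
  have e2 := left_change ps hg hab h2
  have e3 := left_change rq hg hab h3
  have e4 := left_change rs hg hab h4
  rw [hpq.lo, hpq.hi, hpq.flo, hpq.fhi] at e1
  rw [hps.lo, hps.hi, hps.flo, hps.fhi] at e2
  rw [hrq.lo, hrq.hi, hrq.flo, hrq.fhi] at e3
  rw [hrs.lo, hrs.hi, hrs.flo, hrs.fhi] at e4
  unfold parity
  generalize pq.left (g a) a = A1 at *
  generalize ps.left (g a) a = A2 at *
  generalize rq.left (g a) a = A3 at *
  generalize rs.left (g a) a = A4 at *
  generalize pq.left (g b) b = B1 at *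
  generalize ps.left (g b) b = B2 at *
  generalize rq.left (g b) b = B3 at *
  generalize rs.left (g b) b = B4 at *
  generalize ind (a < p.2 ∧ p.2 ≤ b ∧ p.1 < g p.2) = P at *
  generalize ind (a < q.2 ∧ q.2 ≤ b ∧ q.1 < g q.2) = Q at *
  generalize ind (a < r.2 ∧ r.2 ≤ b ∧ r.1 < g r.2) = R at *
  generalize ind (a < s.2 ∧ s.2 ≤ b ∧ s.1 < g s.2) = S at *
  clear h1 h2 h3 h4 hab hg hpq hps hrq hrs
  revert A1 A2 A3 A4 B1 B2 B3 B4 P Q R S
  decide

/-- **Pair lemma.**  Two sources `p`, `r`, the lower one being `p`, and two sinks `t`, `t'`. -/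
theorem pair_lemma {P R P' R' : Strand} {p r t t' : ℝ × ℝ} (hP : P.Joins p t)
    (hR : R.Joins r t) (hP' : P'.Joins p t') (hR' : R'.Joins r t') (hpr : p.2 ≤ r.2)
    (d1 : Disj P' R) (d2 : Disj P R') (hne : t ≠ t') :
    P.left t'.1 t'.2 + R.left t'.1 t'.2 + (P'.left t.1 t.2 + R'.left t.1 t.2) =
      ind (P.f r.2 < r.1 ↔ P'.f r.2 < r.1) := by
  wlog htt : t.2 ≤ t'.2 generalizing P R P' R' t t' with H
  · have := H hP' hR' hP hR d2 d1 hne.symm (not_le.1 htt).le
    rw [add_comm, this]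
    exact ind_congr ⟨Iff.symm, Iff.symm⟩
  have hltP := P.lt
  have hltR := R.lt
  have hltP' := P'.lt
  have hltR' := R'.lt
  rw [hP.lo, hP.hi] at hltP
  rw [hR.lo, hR.hi] at hltR
  rw [hP'.lo, hP'.hi] at hltP'
  rw [hR'.lo, hR'.hi] at hltR'
  have z1 : P.left t'.1 t'.2 = 0 := by
    unfold left
    rw [hP.hi]
    exact ind_false (by rintro ⟨-, h, -⟩; linarith)
  have z2 : R.left t'.1 t'.2 = 0 := by
    unfold left
    rw [hR.hi]
    exact ind_false (by rintro ⟨-, h, -⟩; linarith)
  rw [z1, z2, zero_add, zero_add]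
  -- the strands `P'` and `R`
  have k1 : (P'.f r.2 < r.1 ↔ P'.f t.2 < t.1) := by
    have := order_iff P'.cont R.cont hltR.le (fun y h1 h2 => d1 y
      (by rw [hP'.lo]; linarith) (by rw [hP'.hi]; linarith)
      (by rw [hR.lo]; exact h1) (by rw [hR.hi]; exact h2))
    rw [hR.flo, hR.fhi] at this
    exact this
  have k2 : (P.f r.2 < r.1 ↔ t.1 < R'.f t.2) := by
    have := order_iff P.cont R'.cont hltR.le (fun y h1 h2 => d2 y
      (by rw [hP.lo]; linarith) (by rw [hP.hi]; exact h2)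
      (by rw [hR'.lo]; exact h1) (by rw [hR'.hi]; linarith))
    rw [hR'.flo, hP.fhi] at this
    exact this
  have n1 : P'.f t.2 ≠ t.1 := by
    have := d1 t.2 (by rw [hP'.lo]; linarith) (by rw [hP'.hi]; exact htt)
      (by rw [hR.lo]; exact hltR.le) (by rw [hR.hi])
    rwa [hR.fhi] at this
  have n2 : R'.f t.2 ≠ t.1 := by
    have := d2 t.2 (by rw [hP.lo]; linarith) (by rw [hP.hi])
      (by rw [hR'.lo]; exact hltR.le) (by rw [hR'.hi]; exact htt)
    rw [hP.fhi] at this
    exact this.symm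
  rcases htt.lt_or_eq with hlt | heq
  · have l1 : P'.left t.1 t.2 = ind (P'.f t.2 < t.1) := by
      unfold left
      rw [hP'.lo, hP'.hi]
      exact ind_congr ⟨fun h => h.2.2, fun h => ⟨by linarith, hlt, h⟩⟩
    have l2 : R'.left t.1 t.2 = ind (R'.f t.2 < t.1) := by
      unfold left
      rw [hR'.lo, hR'.hi]
      exact ind_congr ⟨fun h => h.2.2, fun h => ⟨hltR.le, hlt, h⟩⟩
    rw [l1, l2, k1, k2]
    rcases lt_or_gt_of_ne n1 with h1 | h1 <;> rcases lt_or_gt_of_ne n2 with h2 | h2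
    · rw [ind_true h1, ind_true h2, ind_false]
      · decide
      · rw [iff_iff_and_or_not_and_not]
        rintro (⟨h, -⟩ | ⟨-, h⟩)
        · exact absurd h2 (not_lt.2 h.le)
        · exact h h1
    · rw [ind_true h1, ind_false (not_lt.2 h2.le), ind_true]
      · decide
      · exact ⟨fun _ => h1, fun _ => h2⟩
    · rw [ind_false (not_lt.2 h1.le), ind_true h2, ind_true]
      · decide
      · exact ⟨fun h => absurd h2 (not_lt.2 h.le), fun h => absurd h (not_lt.2 h1.le)⟩
    · rw [ind_false (not_lt.2 h1.le), ind_false (not_lt.2 h2.le), ind_false]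
      · decide
      · rw [iff_iff_and_or_not_and_not]
        rintro (⟨-, h⟩ | ⟨h, -⟩)
        · exact absurd h (not_lt.2 h1.le)
        · exact h h2
  · have l1 : P'.left t.1 t.2 = 0 := by
      unfold left
      rw [hP'.hi]
      exact ind_false (by rintro ⟨-, h, -⟩; linarith)
    have l2 : R'.left t.1 t.2 = 0 := by
      unfold left
      rw [hR'.hi]
      exact ind_false (by rintro ⟨-, h, -⟩; linarith)
    rw [l1, l2, k1, k2, ind_false]
    · decide
    · rw [heq, hP'.fhi, hR'.fhi]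
      have hx : t.1 ≠ t'.1 := fun h => hne (Prod.ext h heq)
      rw [iff_iff_and_or_not_and_not]
      rintro (⟨h1, h2⟩ | ⟨h1, h2⟩)
      · linarith
      · exact hx (le_antisymm (not_lt.1 h2) (not_lt.1 h1))

/-- **Three sinks.**  For two sources and three sinks, all joined, the sum over all ordered pairs
of different sinks `t`, `t'` of the parities of the strands to `t` that pass left of `t'` is
odd. -/
theorem three_sinks {P1 P2 P3 R1 R2 R3 : Strand} {p r t1 t2 t3 : ℝ × ℝ} (hP1 : P1.Joins p t1)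
    (hP2 : P2.Joins p t2) (hP3 : P3.Joins p t3) (hR1 : R1.Joins r t1) (hR2 : R2.Joins r t2)
    (hR3 : R3.Joins r t3) (d12 : Disj P1 R2) (d13 : Disj P1 R3) (d21 : Disj P2 R1)
    (d23 : Disj P2 R3) (d31 : Disj P3 R1) (d32 : Disj P3 R2) (n12 : t1 ≠ t2) (n13 : t1 ≠ t3)
    (n23 : t2 ≠ t3) :
    (P1.left t2.1 t2.2 + R1.left t2.1 t2.2 + (P2.left t1.1 t1.2 + R2.left t1.1 t1.2)) +
    (P1.left t3.1 t3.2 + R1.left t3.1 t3.2 + (P3.left t1.1 t1.2 + R3.left t1.1 t1.2)) +
    (P2.left t3.1 t3.2 + R2.left t3.1 t3.2 + (P3.left t2.1 t2.2 + R3.left t2.1 t2.2)) = 1 := by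
  have main : ∀ A B C : Prop, ind (A ↔ B) + ind (A ↔ C) + ind (B ↔ C) = 1 := by
    intro A B C
    by_cases hA : A <;> by_cases hB : B <;> by_cases hC : C <;>
      simp only [hA, hB, hC, ind_true, ind_false, iff_true, iff_false, not_true_eq_false,
        not_false_eq_true] <;> decide
  rcases le_total p.2 r.2 with h | h
  · rw [pair_lemma hP1 hR1 hP2 hR2 h d21 d12 n12, pair_lemma hP1 hR1 hP3 hR3 h d31 d13 n13,
      pair_lemma hP2 hR2 hP3 hR3 h d32 d23 n23]
    exact main _ _ _
  · have e1 := pair_lemma hR1 hP1 hR2 hP2 h d12.symm d21.symm n12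
    have e2 := pair_lemma hR1 hP1 hR3 hP3 h d13.symm d31.symm n13
    have e3 := pair_lemma hR2 hP2 hR3 hP3 h d23.symm d32.symm n23
    have e4 := main (R1.f p.2 < p.1) (R2.f p.2 < p.1) (R3.f p.2 < p.1)
    rw [← e1, ← e2, ← e3] at e4
    rw [← e4]
    ring

/-- **Separation lemma.**  Let `p`, `r` be sources and `q`, `s`, `w` sinks, all joined, and let
the source `z` be joined to `q` and `s`.  The parities of `w` and `z` with respect to the cycle
`p q r s` are different. -/
theorem separation {pq ps pw rq rs rw' zq zs : Strand} {p q r s w z : ℝ × ℝ}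
    (hpq : pq.Joins p q) (hps : ps.Joins p s) (hpw : pw.Joins p w)
    (hrq : rq.Joins r q) (hrs : rs.Joins r s) (hrw : rw'.Joins r w)
    (hzq : zq.Joins z q) (hzs : zs.Joins z s)
    (qs : q ≠ s) (qw : q ≠ w) (sw : s ≠ w)
    (a1 : Disj pq rs) (a2 : Disj pq rw') (a3 : Disj ps rq) (a4 : Disj ps rw')
    (a5 : Disj pw rq) (a6 : Disj pw rs)
    (b1 : Disj pq zs) (b2 : Disj rq zs) (b3 : Disj pw zs) (b4 : Disj rw' zs)
    (c1 : Disj ps zq) (c2 : Disj rs zq) (c3 : Disj pw zq) (c4 : Disj rw' zq) :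
    parity pq ps rq rs w.1 w.2 + parity pq ps rq rs z.1 z.2 = 1 := by
  have T := three_sinks hpq hps hpw hrq hrs hrw a1 a2 a3 a4 a5 a6 qs qw sw
  have hz1 := zs.lt
  have hz2 := zq.lt
  rw [hzs.lo, hzs.hi] at hz1
  rw [hzq.lo, hzq.hi] at hz2
  have E := parity_const hpq hpw hrq hrw zs.cont hz1.le
    (fun y h1 h2 h3 h4 => b1 y h3 h4 (by rw [hzs.lo]; exact h1) (by rw [hzs.hi]; exact h2))
    (fun y h1 h2 h3 h4 => b3 y h3 h4 (by rw [hzs.lo]; exact h1) (by rw [hzs.hi]; exact h2))
    (fun y h1 h2 h3 h4 => b2 y h3 h4 (by rw [hzs.lo]; exact h1) (by rw [hzs.hi]; exact h2))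
    (fun y h1 h2 h3 h4 => b4 y h3 h4 (by rw [hzs.lo]; exact h1) (by rw [hzs.hi]; exact h2))
  have E' := parity_const hps hpw hrs hrw zq.cont hz2.le
    (fun y h1 h2 h3 h4 => c1 y h3 h4 (by rw [hzq.lo]; exact h1) (by rw [hzq.hi]; exact h2))
    (fun y h1 h2 h3 h4 => c3 y h3 h4 (by rw [hzq.lo]; exact h1) (by rw [hzq.hi]; exact h2))
    (fun y h1 h2 h3 h4 => c2 y h3 h4 (by rw [hzq.lo]; exact h1) (by rw [hzq.hi]; exact h2))
    (fun y h1 h2 h3 h4 => c4 y h3 h4 (by rw [hzq.lo]; exact h1) (by rw [hzq.hi]; exact h2))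
  rw [hzs.flo, hzs.fhi] at E
  rw [hzq.flo, hzq.fhi] at E'
  have S : parity pq ps rq rs z.1 z.2 =
      parity pq pw rq rw' z.1 z.2 + parity ps pw rs rw' z.1 z.2 := by
    unfold parity
    generalize pq.left z.1 z.2 = A1
    generalize ps.left z.1 z.2 = A2
    generalize rq.left z.1 z.2 = A3
    generalize rs.left z.1 z.2 = A4
    generalize pw.left z.1 z.2 = A5
    generalize rw'.left z.1 z.2 = A6
    clear * -
    revert A1 A2 A3 A4 A5 A6
    decide
  rw [S, E, E', ← T]
  unfold parity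
  ring

/-- A point with odd parity with respect to a cycle lies strictly inside the bounding box of the
cycle: there are points of the cycle at the same height to the left and to the right. -/
theorem odd_left {pq ps rq rs : Strand} {x y : ℝ} (h : parity pq ps rq rs x y = 1) :
    ∃ e : Strand, (e = pq ∨ e = ps ∨ e = rq ∨ e = rs) ∧ e.lo ≤ y ∧ y < e.hi ∧ e.f y < x := by
  by_contra hcon
  push Not at hcon
  have z : ∀ e : Strand, (e = pq ∨ e = ps ∨ e = rq ∨ e = rs) → e.left x y = 0 := by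
    intro e he
    exact ind_false fun ⟨h1, h2, h3⟩ => absurd h3 (not_lt.2 (hcon e he h1 h2))
  unfold parity at h
  rw [z pq (by tauto), z ps (by tauto), z rq (by tauto), z rs (by tauto)] at h
  revert h
  decide

theorem odd_right {pq ps rq rs : Strand} {p q r s : ℝ × ℝ} (hpq : pq.Joins p q)
    (hps : ps.Joins p s) (hrq : rq.Joins r q) (hrs : rs.Joins r s) {x y : ℝ}
    (h : parity pq ps rq rs x y = 1) :
    ∃ e : Strand, (e = pq ∨ e = ps ∨ e = rq ∨ e = rs) ∧ e.lo ≤ y ∧ y < e.hi ∧ x ≤ e.f y := by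
  by_contra hcon
  push Not at hcon
  have z : ∀ e : Strand, (e = pq ∨ e = ps ∨ e = rq ∨ e = rs) →
      e.left x y = ind (e.lo ≤ y) + ind (e.hi ≤ y) := by
    intro e he
    have := e.lt
    by_cases h1 : e.lo ≤ y
    · by_cases h2 : y < e.hi
      · rw [left, ind_true ⟨h1, h2, hcon e he h1 h2⟩, ind_true h1, ind_false (not_le.2 h2),
          add_zero]
      · rw [left, ind_false (fun h' => h2 h'.2.1), ind_true h1, ind_true (not_lt.1 h2)]
        decide
    · rw [left, ind_false (fun h' => h1 h'.1), ind_false h1, ind_false (fun h' => h1 (by linarith)),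
        add_zero]
  unfold parity at h
  rw [z pq (by tauto), z ps (by tauto), z rq (by tauto), z rs (by tauto), hpq.lo, hpq.hi, hps.lo,
    hps.hi, hrq.lo, hrq.hi, hrs.lo, hrs.hi] at h
  generalize ind (p.2 ≤ y) = A1 at *
  generalize ind (q.2 ≤ y) = A2 at *
  generalize ind (r.2 ≤ y) = A3 at *
  generalize ind (s.2 ≤ y) = A4 at *
  clear * - h
  revert A1 A2 A3 A4
  decide

/-- A point with odd parity is strictly higher than the lower one of the two sources. -/
theorem odd_above {pq ps rq rs : Strand} {p q r s : ℝ × ℝ} (hpq : pq.Joins p q)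
    (hps : ps.Joins p s) (hrq : rq.Joins r q) (hrs : rs.Joins r s) {x y : ℝ}
    (h : parity pq ps rq rs x y = 1) : p.2 < y ∨ r.2 < y := by
  by_contra hcon
  push Not at hcon
  obtain ⟨h1, h2⟩ := hcon
  have l1 := hpq.lo
  have l2 := hps.lo
  have l3 := hrq.lo
  have l4 := hrs.lo
  have t1 := pq.lt
  have t2 := ps.lt
  have t3 := rq.lt
  have t4 := rs.lt
  have e1 : pq.left x y = ps.left x y := by
    unfold left
    rw [l1, l2]
    apply ind_congr
    constructor
    · rintro ⟨h3, h4, h5⟩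
      have : y = p.2 := le_antisymm h1 h3
      refine ⟨h3, by linarith, ?_⟩
      rw [this, hps.flo]
      rw [this, hpq.flo] at h5
      exact h5
    · rintro ⟨h3, h4, h5⟩
      have : y = p.2 := le_antisymm h1 h3
      refine ⟨h3, by linarith, ?_⟩
      rw [this, hpq.flo]
      rw [this, hps.flo] at h5
      exact h5
  have e2 : rq.left x y = rs.left x y := by
    unfold left
    rw [l3, l4]
    apply ind_congr
    constructor
    · rintro ⟨h3, h4, h5⟩
      have : y = r.2 := le_antisymm h2 h3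
      refine ⟨h3, by linarith, ?_⟩
      rw [this, hrs.flo]
      rw [this, hrq.flo] at h5
      exact h5
    · rintro ⟨h3, h4, h5⟩
      have : y = r.2 := le_antisymm h2 h3
      refine ⟨h3, by linarith, ?_⟩
      rw [this, hrq.flo]
      rw [this, hrs.flo] at h5
      exact h5
  unfold parity at h
  rw [e1, e2, add_self, add_self] at h
  revert h
  decide

end Strand

end Q131
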